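import Mathlib
import Pool.Agent.Run7.h285.G.Stm

/-!
# Project GEN (helper285), pieces GSM1 and GSM2: the second moment of a difference of two products

`main`: the weighted second moment of `∏ F (f_l(n) + a l) - ∏ G (f_l(n) + a l)` from bounds for the correlations of `F`, `G` and
`F - G`. Adapted from `Run7/h277/S/Main.lean` (the case `f_l = n ^ 2`, no weights).
-/

set_option autoImplicit false

namespace Run7.h973.G

open Finset Polynomial
open Run7.h285.G
open Run7.h285.S (Bx uu vv ll gg)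

/-- the functions of the telescoping sum -/
noncomputable def mx {k : ℕ} (F G : ℤ → ℝ) (j l : Fin k) : ℤ → ℝ :=
  if l = j then (fun y => F y - G y) else if l < j then F else G

lemma mx_prod {k : ℕ} (f : Fin k → ℤ[X]) (F G : ℤ → ℝ) (a : Fin k → ℤ) (n : ℕ) :
    pr f (fun _ => F) a n - pr f (fun _ => G) a n = ∑ j : Fin k, pr f (mx F G j) a n := by
  unfold pr
  have h := Finset.prod_add_ordered (univ : Finset (Fin k)) (fun l => G ((f l).eval (n : ℤ) + a l))
    (fun l => F ((f l).eval (n : ℤ) + a l) - G ((f l).eval (n : ℤ) + a l))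
  simp only [add_sub_cancel] at h
  rw [h, add_sub_cancel_left]
  refine sum_congr rfl fun j _ => ?_
  have h1 : ∏ l : Fin k, mx F G j l ((f l).eval (n : ℤ) + a l) =
      (∏ l ∈ univ.filter (fun l : Fin k => l < j), mx F G j l ((f l).eval (n : ℤ) + a l)) *
        ∏ l ∈ univ.filter (fun l : Fin k => ¬ l < j), mx F G j l ((f l).eval (n : ℤ) + a l) :=
    (prod_filter_mul_prod_filter_not univ (fun l : Fin k => l < j) _).symm
  have h2 : univ.filter (fun l : Fin k => ¬ l < j) = insert j (univ.filter (fun l : Fin k => j < l)) := by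
    ext l
    simp only [mem_filter, mem_univ, true_and, mem_insert, not_lt]
    constructor
    · intro h
      rcases h.eq_or_lt with h | h
      · exact Or.inl h.symm
      · exact Or.inr h
    · rintro (h | h)
      · exact h.symm.le
      · exact h.le
  rw [h1, h2, prod_insert (by simp)]
  have h3 : ∏ l ∈ univ.filter (fun l : Fin k => l < j), mx F G j l ((f l).eval (n : ℤ) + a l) =
      ∏ l ∈ univ.filter (fun l : Fin k => l < j), F ((f l).eval (n : ℤ) + a l) := by
    refine prod_congr rfl fun l hl => ?_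
    rw [mem_filter] at hl
    unfold mx
    rw [if_neg hl.2.ne, if_pos hl.2]
  have h4 : ∏ l ∈ univ.filter (fun l : Fin k => j < l), mx F G j l ((f l).eval (n : ℤ) + a l) =
      ∏ l ∈ univ.filter (fun l : Fin k => j < l), G ((f l).eval (n : ℤ) + a l) := by
    refine prod_congr rfl fun l hl => ?_
    rw [mem_filter] at hl
    unfold mx
    rw [if_neg hl.2.ne', if_neg (not_lt.2 hl.2.le)]
  have h5 : mx F G j j ((f j).eval (n : ℤ) + a j) = F ((f j).eval (n : ℤ) + a j) - G ((f j).eval (n : ℤ) + a j) := by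
    unfold mx
    rw [if_pos rfl]
  rw [h3, h4, h5]
  ring

lemma cor_symm (g : ℤ[X]) (F : ℤ → ℝ) (X n n' : ℕ) : cor g F X n n' = cor g F X n' n := by
  unfold cor
  exact sum_congr rfl fun c _ => mul_comm _ _

lemma cor_nonneg (g : ℤ[X]) (F : ℤ → ℝ) (X n : ℕ) : 0 ≤ cor g F X n n :=
  sum_nonneg fun _ _ => mul_self_nonneg _

lemma cor_le (g : ℤ[X]) {F : ℤ → ℝ} {B : ℝ} (hf : ∀ y, |F y| ≤ B) (X n n' : ℕ) :
    |cor g F X n n'| ≤ (2 * X + 1) * B ^ 2 := by
  have hB : 0 ≤ B := (abs_nonneg _).trans (hf 0)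
  unfold cor
  refine (abs_sum_le_sum_abs _ _).trans ?_
  have h1 : ∀ c ∈ Icc (-(X : ℤ)) X, |F (g.eval (n : ℤ) + c) * F (g.eval (n' : ℤ) + c)| ≤ B ^ 2 := by
    intro c _
    rw [abs_mul, sq B]
    exact mul_le_mul (hf _) (hf _) (abs_nonneg _) hB
  refine (sum_le_sum h1).trans (le_of_eq ?_)
  rw [sum_const, Int.card_Icc, nsmul_eq_mul]
  have : ((X : ℤ) + 1 - -(X : ℤ)).toNat = 2 * X + 1 := by omega
  rw [this]
  push_cast
  ring

/-- the second moment over the constant terms -/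
lemma expand {k : ℕ} (f : Fin k → ℤ[X]) (ω : ℕ → ℝ) (F : Fin k → ℤ → ℝ) (X : ℕ) (W : Finset ℕ) :
    ∑ a ∈ Bx k X, (∑ n ∈ W, ω n * pr f F a n) ^ 2 =
      ∑ n ∈ W, ∑ n' ∈ W, ω n * ω n' * ∏ l, cor (f l) (F l) X n n' := by
  have h1 : ∀ a ∈ Bx k X, (∑ n ∈ W, ω n * pr f F a n) ^ 2 =
      ∑ n ∈ W, ∑ n' ∈ W, ω n * ω n' * ∏ l, (F l ((f l).eval (n : ℤ) + a l) * F l ((f l).eval (n' : ℤ) + a l)) := by
    intro a _
    rw [sq, sum_mul_sum]
    refine sum_congr rfl fun n _ => sum_congr rfl fun n' _ => ?_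
    unfold pr
    rw [prod_mul_distrib]
    ring
  rw [sum_congr rfl h1, sum_comm]
  refine sum_congr rfl fun n _ => ?_
  rw [sum_comm]
  refine sum_congr rfl fun n' _ => ?_
  rw [← mul_sum]
  unfold cor Bx
  rw [Finset.prod_univ_sum]

/-- windows as sets of shifts -/
lemma win_shift (m H : ℕ) (g : ℕ → ℝ) : ∑ n ∈ Ioc m (m + H), g n = ∑ i ∈ Icc 1 H, g (m + i) := by
  refine sum_nbij' (fun i => i - m) (fun t => m + t) ?_ ?_ ?_ ?_ ?_
  · intro i hi
    rw [mem_Ioc] at hi; rw [mem_Icc]; omega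
  · intro t ht
    rw [mem_Icc] at ht; rw [mem_Ioc]; omega
  · intro i hi
    rw [mem_Ioc] at hi; omega
  · intro t ht
    omega
  · intro i hi
    rw [mem_Ioc] at hi
    show g i = g (m + (i - m))
    rw [show m + (i - m) = i by omega]

/-- **main** -/
theorem main (k : ℕ) (f : Fin (k + 1) → ℤ[X]) (ω : ℕ → ℝ) (hω : ∀ n, |ω n| ≤ 1) (X m₀ M H : ℕ) (F G : ℤ → ℝ)
    (d A e : ℝ) (hA : 0 ≤ A)
    (hdF : ∀ l n, cor (f l) F X n n ≤ d) (hdG : ∀ l n, cor (f l) G X n n ≤ d)
    (hdD : ∀ l n, cor (f l) (fun y => F y - G y) X n n ≤ d)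
    (hAF : ∀ l n n', |cor (f l) F X n n'| ≤ A) (hAG : ∀ l n n', |cor (f l) G X n n'| ≤ A)
    (he : ∀ l, ∀ i j : ℕ, i < j → j ≤ H →
      ∑ m ∈ Ioc m₀ (m₀ + M), |cor (f l) (fun y => F y - G y) X (m + i) (m + j)| ≤ e) :
    MM (k + 1) ω (fun a n => pr f (fun _ => F) a n - pr f (fun _ => G) a n) X m₀ M H ≤
      ((k : ℝ) + 1) ^ 2 * ((∑ m ∈ Ioc m₀ (m₀ + M), ∑ n ∈ Ioc m (m + H), ω n ^ 2) * d ^ (k + 1) +
        (H : ℝ) ^ 2 * (A ^ k * e)) := by
  have hd0 : 0 ≤ d := (cor_nonneg (f 0) F X 0).trans (hdF 0 0)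
  unfold MM
  simp_rw [mx_prod]
  -- Cauchy-Schwarz
  have h1 : ∀ (a : Fin (k + 1) → ℤ) (m : ℕ),
      (∑ n ∈ Ioc m (m + H), ω n * ∑ j : Fin (k + 1), pr f (mx F G j) a n) ^ 2 ≤
      ((k : ℝ) + 1) * ∑ j : Fin (k + 1), (∑ n ∈ Ioc m (m + H), ω n * pr f (mx F G j) a n) ^ 2 := by
    intro a m
    simp_rw [mul_sum]
    rw [sum_comm]
    have := sq_sum_le_card_mul_sum_sq (s := (univ : Finset (Fin (k + 1))))
      (f := fun j => ∑ n ∈ Ioc m (m + H), ω n * pr f (mx F G j) a n)
    rw [card_univ, Fintype.card_fin] at this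
    push_cast at this
    rw [← mul_sum]
    exact this
  have h2 : ∀ j : Fin (k + 1), ∑ m ∈ Ioc m₀ (m₀ + M), ∑ a ∈ Bx (k + 1) X,
      (∑ n ∈ Ioc m (m + H), ω n * pr f (mx F G j) a n) ^ 2 ≤
      (∑ m ∈ Ioc m₀ (m₀ + M), ∑ n ∈ Ioc m (m + H), ω n ^ 2) * d ^ (k + 1) + (H : ℝ) ^ 2 * (A ^ k * e) := by
    intro j
    have h3 : ∀ m, ∑ a ∈ Bx (k + 1) X, (∑ n ∈ Ioc m (m + H), ω n * pr f (mx F G j) a n) ^ 2 =
        ∑ i ∈ Icc 1 H, ∑ i' ∈ Icc 1 H, ω (m + i) * ω (m + i') * ∏ l, cor (f l) (mx F G j l) X (m + i) (m + i') := by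
      intro m
      rw [expand, win_shift]
      refine sum_congr rfl fun i _ => ?_
      rw [win_shift]
    rw [sum_congr rfl fun m _ => h3 m]
    have h4 : ∀ i ∈ Icc 1 H, ∑ m ∈ Ioc m₀ (m₀ + M), ∑ i' ∈ Icc 1 H,
        ω (m + i) * ω (m + i') * ∏ l, cor (f l) (mx F G j l) X (m + i) (m + i') ≤
        (∑ m ∈ Ioc m₀ (m₀ + M), ω (m + i) ^ 2) * d ^ (k + 1) + H * (A ^ k * e) := by
      intro i hi
      rw [sum_comm]
      have he0 : 0 ≤ e := by
        rw [mem_Icc] at hi
        exact (sum_nonneg fun _ _ => abs_nonneg _).trans (he 0 0 1 (by omega) (by omega))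
      have h5 : ∀ i' ∈ Icc 1 H, ∑ m ∈ Ioc m₀ (m₀ + M),
          ω (m + i) * ω (m + i') * ∏ l, cor (f l) (mx F G j l) X (m + i) (m + i') ≤
          (if i' = i then (∑ m ∈ Ioc m₀ (m₀ + M), ω (m + i) ^ 2) * d ^ (k + 1) else 0) + A ^ k * e := by
        intro i' hi'
        rw [mem_Icc] at hi hi'
        split_ifs with hii
        · rw [hii, sum_mul]
          have h6 : ∀ m ∈ Ioc m₀ (m₀ + M),
              ω (m + i) * ω (m + i) * ∏ l, cor (f l) (mx F G j l) X (m + i) (m + i) ≤ ω (m + i) ^ 2 * d ^ (k + 1) := by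
            intro m _
            rw [← sq]
            apply mul_le_mul_of_nonneg_left _ (sq_nonneg _)
            calc ∏ l, cor (f l) (mx F G j l) X (m + i) (m + i) ≤ ∏ _l : Fin (k + 1), d := by
                  refine prod_le_prod (fun l _ => cor_nonneg _ _ _ _) fun l _ => ?_
                  unfold mx
                  split_ifs
                  · exact hdD _ _
                  · exact hdF _ _
                  · exact hdG _ _
              _ = _ := by rw [prod_const, card_univ, Fintype.card_fin]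
          refine (sum_le_sum h6).trans ?_
          have : 0 ≤ A ^ k * e := by positivity
          linarith
        · rw [zero_add]
          have h6 : ∀ m ∈ Ioc m₀ (m₀ + M),
              ω (m + i) * ω (m + i') * ∏ l, cor (f l) (mx F G j l) X (m + i) (m + i') ≤
              A ^ k * |cor (f j) (fun y => F y - G y) X (m + i) (m + i')| := by
            intro m _
            refine (le_abs_self _).trans ?_
            rw [abs_mul]
            have hω1 : |ω (m + i) * ω (m + i')| ≤ 1 := by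
              rw [abs_mul]
              exact mul_le_one₀ (hω _) (abs_nonneg _) (hω _)
            refine (mul_le_of_le_one_left (abs_nonneg _) hω1).trans ?_
            rw [abs_prod, ← mul_prod_erase univ _ (mem_univ j), mul_comm]
            have e1 : mx F G j j = fun y => F y - G y := by unfold mx; rw [if_pos rfl]
            rw [e1]
            apply mul_le_mul_of_nonneg_right _ (abs_nonneg _)
            calc ∏ l ∈ univ.erase j, |cor (f l) (mx F G j l) X (m + i) (m + i')| ≤ ∏ _l ∈ univ.erase j, A := by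
                  refine prod_le_prod (fun l _ => abs_nonneg _) fun l hl => ?_
                  rw [mem_erase] at hl
                  unfold mx
                  rw [if_neg hl.1]
                  split_ifs
                  · exact hAF _ _ _
                  · exact hAG _ _ _
              _ = _ := by rw [prod_const, card_erase_of_mem (mem_univ j), card_univ, Fintype.card_fin, Nat.add_sub_cancel]
          refine (sum_le_sum h6).trans ?_
          rw [← mul_sum]
          apply mul_le_mul_of_nonneg_left _ (by positivity)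
          rcases lt_or_gt_of_ne hii with h | h
          · refine le_trans (le_of_eq ?_) (he j i' i h hi.2)
            exact sum_congr rfl fun m _ => by rw [cor_symm]
          · exact he j i i' h hi'.2
      refine (sum_le_sum h5).trans ?_
      rw [sum_add_distrib, sum_ite_eq' (Icc 1 H) i, if_pos hi, sum_const, Nat.card_Icc, nsmul_eq_mul]
      simp
    rw [sum_comm]
    refine (sum_le_sum h4).trans (le_of_eq ?_)
    rw [sum_add_distrib, sum_const, Nat.card_Icc, nsmul_eq_mul, Nat.add_sub_cancel, ← sum_mul, sum_comm]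
    simp_rw [win_shift _ H]
    ring
  calc ∑ a ∈ Bx (k + 1) X, ∑ m ∈ Ioc m₀ (m₀ + M),
        (∑ n ∈ Ioc m (m + H), ω n * ∑ j : Fin (k + 1), pr f (mx F G j) a n) ^ 2
      ≤ ∑ a ∈ Bx (k + 1) X, ∑ m ∈ Ioc m₀ (m₀ + M),
          ((k : ℝ) + 1) * ∑ j : Fin (k + 1), (∑ n ∈ Ioc m (m + H), ω n * pr f (mx F G j) a n) ^ 2 :=
        sum_le_sum fun a _ => sum_le_sum fun m _ => h1 a m
    _ = ((k : ℝ) + 1) * ∑ j : Fin (k + 1), ∑ m ∈ Ioc m₀ (m₀ + M), ∑ a ∈ Bx (k + 1) X,
          (∑ n ∈ Ioc m (m + H), ω n * pr f (mx F G j) a n) ^ 2 := by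
        simp_rw [← mul_sum]
        congr 1
        rw [sum_comm]
        rw [sum_congr rfl fun m _ => sum_comm (s := Bx (k + 1) X), sum_comm]
    _ ≤ ((k : ℝ) + 1) * ∑ _j : Fin (k + 1), ((∑ m ∈ Ioc m₀ (m₀ + M), ∑ n ∈ Ioc m (m + H), ω n ^ 2) * d ^ (k + 1) +
          (H : ℝ) ^ 2 * (A ^ k * e)) :=
        mul_le_mul_of_nonneg_left (sum_le_sum fun j _ => h2 j) (by positivity)
    _ = _ := by
        rw [sum_const, card_univ, Fintype.card_fin, nsmul_eq_mul]
        push_cast
        ring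

end Run7.h973.G
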