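import Mathlib
import Pool.Agent.Run7.h973.G.Main
import Pool.Agent.Run7.h277.S.SM1

/-!
# Project GEN (helper285), piece GSM1

Adapted from `Run7/h277/S/SM1.lean`.
-/

set_option autoImplicit false

namespace Run7.h973.G

open Finset Filter Polynomial
open Run7.h285.G
open Run7.h285.S (Bx uu vv ll gg)
open Run7.h277.S (uu_gg uu_le)
open Pool.Agent.TH892.SW (ff wt)
open Pool.Agent.H373R2.T7 (pz Vz lamz)
open Pool.Agent.H442R2.EHI (evt_log_pow evt_log_ge)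
open Pool.Agent.TH892.OW (primes_int Vz_log evt_ll S_facts)

/-- the values `s (t + c)` fill an interval -/
lemma shift_sum (s : ℤ) (hs : s = 1 ∨ s = -1) (f : ℤ → ℝ) (X : ℕ) (t : ℤ) :
    ∑ c ∈ Icc (-(X : ℤ)) X, f (s * (t + c)) =
      ∑ y ∈ Icc (s * t - X) (s * t + X), f y := by
  have hss : s * s = 1 := by rcases hs with h | h <;> rw [h] <;> norm_num
  refine sum_nbij' (fun c => s * (t + c)) (fun y => s * y - t) ?_ ?_ ?_ ?_ ?_
  · intro c hc
    rw [mem_Icc] at hc ⊢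
    rcases hs with h | h <;> rw [h] <;> constructor <;> linarith
  · intro y hy
    rw [mem_Icc] at hy ⊢
    rcases hs with h | h <;> rw [h] at hy ⊢ <;> constructor <;> linarith
  · intro c _
    show s * (s * (t + c)) - t = c
    rw [← mul_assoc, hss]; ring
  · intro y _
    show s * (t + (s * y - t)) = y
    rw [show s * (t + (s * y - t)) = (s * s) * y by ring, hss, one_mul]
  · intro c _; rfl

lemma uu_diag (g : ℤ[X]) (X n : ℕ) (hX : 2 ≤ X) : cor g uu X n n ≤ 120 * (X / Real.log X) := by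
  unfold cor
  obtain ⟨t, ht⟩ : ∃ t : ℤ, t = g.eval (n : ℤ) := ⟨_, rfl⟩
  rw [← ht]
  have h1 : ∀ c ∈ Icc (-(X : ℤ)) X, uu (t + c) * uu (t + c) ≤
      (if (1 * (t + c)).toNat.Prime then (1 : ℝ) else 0) +
        (if (-1 * (t + c)).toNat.Prime then (1 : ℝ) else 0) := fun c _ => uu_le _
  refine (sum_le_sum h1).trans ?_
  have h2 : ∀ s : ℤ, s = 1 ∨ s = -1 → ∑ c ∈ Icc (-(X : ℤ)) X,
      (if (s * (t + c)).toNat.Prime then (1 : ℝ) else 0) ≤ 60 * (X / Real.log X) := by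
    intro s hs
    rw [shift_sum s hs (fun y => if y.toNat.Prime then (1 : ℝ) else 0) X t]
    have h3 := primes_int X hX (s * t - X) (Icc (s * t - X) (s * t + X))
      (fun v hv => by rw [mem_Icc] at hv; constructor <;> linarith [hv.1, hv.2])
    rw [card_filter] at h3
    push_cast at h3
    exact h3
  rw [sum_add_distrib]
  have := h2 1 (Or.inl rfl)
  have := h2 (-1) (Or.inr rfl)
  linarith

lemma gg_diag (g : ℤ[X]) {X z n : ℕ} (hL : 10000 ≤ Real.log X) (hLX : Real.log X ^ 2 ≤ √(X : ℝ))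
    (hV : (Vz z)⁻¹ ^ 2 ≤ Real.log X) : cor g (gg z) X n n ≤ 1800 * (X / Real.log X) := by
  unfold cor
  obtain ⟨t, ht⟩ : ∃ t : ℤ, t = g.eval (n : ℤ) := ⟨_, rfl⟩
  rw [← ht]
  have h2 : ∀ s : ℤ, s = 1 ∨ s = -1 → ∑ c ∈ Icc (-(X : ℤ)) X, ff z (s * (t + c)) ^ 2 ≤
      450 * (X / Real.log X) := by
    intro s hs
    rw [shift_sum s hs (fun y => ff z y ^ 2) X t]
    refine (Run7.h545.CR.ff_int hL hLX hV (by linarith)).trans (le_of_eq ?_)
    rw [mul_div_assoc]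
  have h1 : ∀ c ∈ Icc (-(X : ℤ)) X, gg z (t + c) * gg z (t + c) ≤
      2 * ff z (1 * (t + c)) ^ 2 + 2 * ff z (-1 * (t + c)) ^ 2 := by
    intro c _
    unfold gg
    nlinarith [sq_nonneg (ff z (1 * (t + c)) - ff z (-1 * (t + c)))]
  refine (sum_le_sum h1).trans ?_
  rw [sum_add_distrib, ← mul_sum, ← mul_sum]
  have := h2 1 (Or.inl rfl)
  have := h2 (-1) (Or.inr rfl)
  linarith

lemma vv_diag (g : ℤ[X]) {X z n : ℕ} (hL : 10000 ≤ Real.log X) (hLX : Real.log X ^ 2 ≤ √(X : ℝ))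
    (hV : (Vz z)⁻¹ ^ 2 ≤ Real.log X) (hX : 2 ≤ X) : cor g (vv z) X n n ≤ 4000 * (X / Real.log X) := by
  have h1 := uu_diag g X n hX
  have h2 := gg_diag g (n := n) hL hLX hV
  have h3 : cor g (vv z) X n n ≤ 2 * cor g uu X n n + 2 * cor g (gg z) X n n := by
    unfold cor
    rw [mul_sum, mul_sum, ← sum_add_distrib]
    refine sum_le_sum fun c _ => ?_
    have := uu_gg z (g.eval (n : ℤ) + c)
    have e : vv z (g.eval (n : ℤ) + c) = uu (g.eval (n : ℤ) + c) - gg z (g.eval (n : ℤ) + c) := by linarith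
    rw [e]
    nlinarith [sq_nonneg (uu (g.eval (n : ℤ) + c) + gg z (g.eval (n : ℤ) + c))]
  have h4 : 0 ≤ (X : ℝ) / Real.log X := by positivity
  linarith

/-- **GSM1** -/
theorem gsm1 {k : ℕ} (f : Fin k → ℤ[X]) (_hf : ∀ l, Gd (f l)) (h : ∀ l, S_GCG (f l)) : S_GSM1 f := by
  rcases k with _ | k
  · -- the empty product
    refine ⟨1, le_rfl, fun U C D => ⟨0, fun E _ => ⟨0, 0, fun X _ m₀ M H _ _ _ _ ω _ => ?_⟩⟩⟩
    unfold MM pr
    simp only [univ_eq_empty, prod_empty, sub_self, mul_zero, sum_const_zero, ne_eq, OfNat.ofNat_ne_zero,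
      not_false_eq_true, zero_pow]
    positivity
  refine ⟨((k : ℝ) + 1) ^ 2 * 4000 ^ (k + 1) + 1, by
    have : 0 ≤ ((k : ℝ) + 1) ^ 2 * 4000 ^ (k + 1) := by positivity
    linarith, ?_⟩
  intro U C D
  choose E1 hE1 using fun l => h l (U + 3 * k + 2) C D
  refine ⟨max (univ.sup E1) 1, ?_⟩
  intro E hE
  have hEl : ∀ l, E1 l ≤ E := fun l => (le_sup (mem_univ l)).trans ((le_max_left _ _).trans hE)
  choose B X1 hB using fun l => hE1 l E (hEl l)
  have hE' : 1 ≤ E := (le_max_right _ _).trans hE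
  obtain ⟨X2, hX2⟩ := Pool.Agent.TH892.SW.sq_ff E
  obtain ⟨CV, hCV1, hCV⟩ := Vz_log
  have hev : ∀ᶠ X : ℕ in atTop, (10000 : ℝ) ≤ Real.log X ∧
      CV ^ 2 * (E : ℝ) ^ 4 * Real.log (Real.log X) ^ 4 ≤ Real.log X ^ (1 : ℝ) ∧
      Real.log X ^ 2 ≤ (X : ℝ) ^ (1 / 2 : ℝ) ∧ (k : ℝ) + 1 ≤ Real.log X := by
    filter_upwards [evt_log_ge 10000, evt_ll 4 1 (CV ^ 2 * (E : ℝ) ^ 4) (by norm_num),
      evt_log_pow 2 (1 / 2) (by norm_num), evt_log_ge (k + 1)] with X h1 h2 h3 h4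
    exact ⟨h1, h2, h3, h4⟩
  obtain ⟨X3, hX3⟩ := eventually_atTop.1 hev
  refine ⟨univ.sup B, max (max (univ.sup X1) X2) X3, ?_⟩
  intro X hX m₀ M H hH1 hHD hM hm ω hω
  obtain ⟨hL, hll, hLX, hkL⟩ := hX3 X ((le_max_right _ _).trans hX)
  have hBX := fun l => hB l X ((le_sup (mem_univ l)).trans ((le_max_left _ _).trans ((le_max_left _ _).trans hX)))
  have hsf := hX2 X ((le_max_right _ _).trans ((le_max_left _ _).trans hX))
  obtain ⟨hX1, -, -, -, -, hX100, hXs⟩ := S_facts X hL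
  have hX2' : 2 ≤ X := by
    have : Nat.sqrt X ≤ X := Nat.sqrt_le_self X
    omega
  have hX0 : (1 : ℝ) ≤ X := by exact_mod_cast hX1
  rw [← Real.sqrt_eq_rpow] at hLX
  have hmain := fun z : ℕ => main k f ω hω X m₀ M H uu (vv z)
  set L := Real.log X with hLdef
  have hL1 : 1 ≤ L := by linarith
  have hL0 : 0 < L := by linarith
  have hMl : ∀ l, (X : ℝ) ^ (1 / 3 : ℝ) * L ^ B l ≤ (M : ℝ) ^ ((f l).natDegree - 1) := by
    intro l
    refine le_trans ?_ (hM l)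
    apply mul_le_mul_of_nonneg_left _ (by positivity)
    exact pow_le_pow_right₀ hL1 (le_sup (mem_univ l))
  set z := ⌊L ^ E⌋₊ with hz
  have hLE : L ≤ L ^ E := by
    calc L = L ^ 1 := (pow_one _).symm
      _ ≤ L ^ E := pow_le_pow_right₀ hL1 hE'
  have hz3 : 3 ≤ z := by
    rw [hz]; apply Nat.le_floor; push_cast; linarith
  have hzle : (z : ℝ) ≤ L ^ E := Nat.floor_le (by positivity)
  have hff := (hsf z (by omega) hzle).1
  have hlogz : Real.log z ≤ E * Real.log L := by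
    have h1 : (0 : ℝ) < z := by exact_mod_cast (by omega : 0 < z)
    have := Real.log_le_log h1 hzle
    rwa [Real.log_pow] at this
  have hlz0 : 0 ≤ Real.log z := Real.log_natCast_nonneg z
  have hV : (Vz z)⁻¹ ^ 2 ≤ L := by
    have h1 := hCV z hz3
    have h2 : 0 ≤ (Vz z)⁻¹ := (inv_pos.2 (Pool.Agent.H373R2.T7.Vz_pos z)).le
    rw [Real.rpow_one] at hll
    calc (Vz z)⁻¹ ^ 2 ≤ (CV * Real.log z ^ 2) ^ 2 := pow_le_pow_left₀ h2 h1 2
      _ ≤ (CV * (E * Real.log L) ^ 2) ^ 2 := by gcongr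
      _ = CV ^ 2 * (E : ℝ) ^ 4 * Real.log L ^ 4 := by ring
      _ ≤ L := hll
  have hgg : ∀ y, |gg z y| ≤ 6 * L := by
    intro y
    unfold gg
    have h1 := abs_add_le (ff z (1 * y)) (ff z (-1 * y))
    have h2 := hff (1 * y)
    have h3 := hff (-1 * y)
    linarith
  have huu : ∀ y, |uu y| ≤ 7 * L := by
    intro y
    unfold uu
    split_ifs
    · rw [abs_one]; linarith
    · rw [abs_zero]; linarith
  have hvv : ∀ y, |vv z y| ≤ 7 * L := by
    intro y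
    have e : vv z y = uu y - gg z y := by linarith [uu_gg z y]
    rw [e]
    have h1 := abs_sub (uu y) (gg z y)
    have h2 := hgg y
    have h3 : |uu y| ≤ 1 := by
      unfold uu
      split_ifs
      · rw [abs_one]
      · rw [abs_zero]; norm_num
    linarith
  have hggf : (fun y => uu y - vv z y) = gg z := funext fun y => uu_gg z y
  have hA : (2 * (X : ℝ) + 1) * (7 * L) ^ 2 ≤ X * L ^ 3 := by
    have h1 : (2 * (X : ℝ) + 1) * (7 * L) ^ 2 ≤ (3 * X) * (7 * L) ^ 2 := by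
      apply mul_le_mul_of_nonneg_right _ (by positivity)
      linarith
    have h2 : (3 * (X : ℝ)) * (7 * L) ^ 2 = 147 * (X * L ^ 2) := by ring
    have h3 : X * L ^ 3 = L * (X * L ^ 2) := by ring
    have h4 : 0 ≤ (X : ℝ) * L ^ 2 := by positivity
    rw [h3]
    nlinarith
  have hdd : 0 ≤ (X : ℝ) / L := by positivity
  have hm2 := hmain z (4000 * (X / L)) (X * L ^ 3) (X * M / L ^ (U + 3 * k + 2)) (by positivity)
    (fun l n => by have := uu_diag (f l) X n hX2'; linarith)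
    (fun l n => vv_diag (f l) hL hLX hV hX2')
    (fun l n => by
      rw [hggf]
      have := gg_diag (f l) (n := n) hL hLX hV
      linarith)
    (fun l n n' => (cor_le (f l) huu X n n').trans hA)
    (fun l n n' => (cor_le (f l) hvv X n n').trans hA)
    (fun l i j hij hjH => by
      rw [hggf]
      exact hBX l m₀ M i j hij ((by exact_mod_cast hjH : (j : ℝ) ≤ H).trans hHD) (hMl l) (hm l))
  refine hm2.trans ?_
  have hH0 : (0 : ℝ) ≤ H := Nat.cast_nonneg _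
  have hM0 : (0 : ℝ) ≤ M := Nat.cast_nonneg _
  obtain ⟨S, hS⟩ : ∃ S : ℝ, S = ∑ m ∈ Ioc m₀ (m₀ + M), ∑ n ∈ Ioc m (m + H), ω n ^ 2 := ⟨_, rfl⟩
  have hS0 : 0 ≤ S := by
    rw [hS]
    exact sum_nonneg fun _ _ => sum_nonneg fun _ _ => sq_nonneg _
  rw [← hS]
  have t1 : ((k : ℝ) + 1) ^ 2 * (S * (4000 * (X / L)) ^ (k + 1)) =
      (X : ℝ) ^ (k + 1) * ((((k : ℝ) + 1) ^ 2 * 4000 ^ (k + 1)) * S / L ^ (k + 1)) := by
    rw [mul_pow, div_pow]
    ring
  have t2 : ((k : ℝ) + 1) ^ 2 * ((H : ℝ) ^ 2 * ((X * L ^ 3) ^ k * (X * M / L ^ (U + 3 * k + 2)))) ≤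
      (X : ℝ) ^ (k + 1) * (M * (H : ℝ) ^ 2 / L ^ U) := by
    have e1 : (L ^ (U + 3 * k + 2) : ℝ) = L ^ U * (L ^ 3) ^ k * L ^ 2 := by rw [pow_add, pow_add, pow_mul]
    have e2 : ((k : ℝ) + 1) ^ 2 * ((H : ℝ) ^ 2 * ((X * L ^ 3) ^ k * (X * M / L ^ (U + 3 * k + 2)))) =
        (X : ℝ) ^ (k + 1) * (M * (H : ℝ) ^ 2 / L ^ U) * (((k : ℝ) + 1) ^ 2 / L ^ 2) := by
      rw [e1, mul_pow]
      field_simp
      ring
    rw [e2]
    have h5 : ((k : ℝ) + 1) ^ 2 / L ^ 2 ≤ 1 := by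
      rw [div_le_one (by positivity)]
      exact pow_le_pow_left₀ (by positivity) hkL 2
    have h6 : 0 ≤ (X : ℝ) ^ (k + 1) * (M * (H : ℝ) ^ 2 / L ^ U) := by positivity
    exact mul_le_of_le_one_right h6 h5
  have t3 : (X : ℝ) ^ (k + 1) * ((((k : ℝ) + 1) ^ 2 * 4000 ^ (k + 1)) * S / L ^ (k + 1)) ≤
      (X : ℝ) ^ (k + 1) * ((((k : ℝ) + 1) ^ 2 * 4000 ^ (k + 1) + 1) * S / L ^ (k + 1)) := by
    apply mul_le_mul_of_nonneg_left _ (by positivity)
    apply div_le_div_of_nonneg_right _ (by positivity)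
    nlinarith
  calc ((k : ℝ) + 1) ^ 2 * (S * (4000 * (X / L)) ^ (k + 1) + (H : ℝ) ^ 2 * ((X * L ^ 3) ^ k * (X * M / L ^ (U + 3 * k + 2))))
      = ((k : ℝ) + 1) ^ 2 * (S * (4000 * (X / L)) ^ (k + 1)) +
        ((k : ℝ) + 1) ^ 2 * ((H : ℝ) ^ 2 * ((X * L ^ 3) ^ k * (X * M / L ^ (U + 3 * k + 2)))) := by ring
    _ ≤ (X : ℝ) ^ (k + 1) * ((((k : ℝ) + 1) ^ 2 * 4000 ^ (k + 1) + 1) * S / L ^ (k + 1)) +
        (X : ℝ) ^ (k + 1) * (M * (H : ℝ) ^ 2 / L ^ U) := by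
        rw [t1]
        exact add_le_add t3 t2
    _ = _ := by ring

end Run7.h973.G
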