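import Mathlib
import Pool.Agent.Run7.h973.G.Main
import Pool.Agent.Run7.h277.S.SM2

/-!
# Project GEN (helper285), piece GSM2

Adapted from `Run7/h277/S/SM2.lean`.
-/

set_option autoImplicit false

namespace Run7.h973.G

open Finset Filter Polynomial
open Run7.h285.G
open Run7.h285.S (Bx uu vv ll gg)
open Run7.h277.S (ll_nonneg ll_le)
open Pool.Agent.H373R2.T7 (pz Vz lamz)
open Pool.Agent.H442R2.EHI (evt_log_pow evt_log_ge)
open Pool.Agent.TH892.OW (Vz_log evt_ll evt_ll_ge S_facts)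

/-- **GSM2** -/
theorem gsm2 {k : ℕ} (f : Fin k → ℤ[X]) (_hf : ∀ l, Gd (f l)) (h : ∀ l, S_GCF (f l)) : S_GSM2 f := by
  rcases k with _ | k
  · -- the empty product
    refine fun C D E u V _ _ => ⟨3, fun X hX m₀ M H _ _ _ _ => ?_⟩
    unfold MM pr
    simp only [univ_eq_empty, prod_empty, sub_self, mul_zero, sum_const_zero, ne_eq, OfNat.ofNat_ne_zero,
      not_false_eq_true, zero_pow]
    have h1 : 0 ≤ Real.log (Real.log X) := by
      apply Real.log_nonneg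
      rw [← Real.log_exp 1]
      apply Real.log_le_log (Real.exp_pos _)
      have := Real.exp_one_lt_d9
      have h3 : (3 : ℝ) ≤ X := by exact_mod_cast hX
      linarith
    positivity
  intro C D E u V hE hu
  choose X1 hCF using fun l => h l C D E u (V + 4 * k + 1) hE hu
  obtain ⟨CV, hCV1, hCV⟩ := Vz_log
  obtain ⟨K, hK⟩ : ∃ K : ℝ, K = CV * ((E : ℝ) + 1) ^ 2 := ⟨_, rfl⟩
  have hE0 : (1 : ℝ) ≤ E := by exact_mod_cast hE
  have hK1 : 1 ≤ K := by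
    rw [hK]
    nlinarith [sq_nonneg (E : ℝ)]
  have hu0 : (0 : ℝ) < 1 / (u : ℝ) := by
    have : (0 : ℝ) < u := by exact_mod_cast hu
    positivity
  have hlim : ∀ᶠ X : ℕ in atTop, (3 : ℝ) ≤ Real.log X ^ (1 / (u : ℝ)) := by
    have h1 : Tendsto (fun X : ℕ => Real.log (X : ℝ)) atTop atTop :=
      Real.tendsto_log_atTop.comp (tendsto_natCast_atTop_atTop (R := ℝ))
    exact ((tendsto_rpow_atTop hu0).comp h1).eventually_ge_atTop 3
  have hev : ∀ᶠ X : ℕ in atTop, (10000 : ℝ) ≤ Real.log X ∧ (3 : ℝ) ≤ Real.log X ^ (1 / (u : ℝ)) ∧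
      ((k : ℝ) + 1) ^ 2 * (3 * K ^ 2) ^ (k + 1) * Real.log (Real.log X) ^ (4 * (k + 1)) ≤ Real.log X ^ (1 / 2 : ℝ) ∧
      ((k : ℝ) + 1) ^ 2 * (3 * K ^ 2) ^ k ≤ Real.log (Real.log X) := by
    filter_upwards [evt_log_ge 10000, hlim, evt_ll (4 * (k + 1)) (1 / 2) (((k : ℝ) + 1) ^ 2 * (3 * K ^ 2) ^ (k + 1)) (by norm_num),
      evt_ll_ge (((k : ℝ) + 1) ^ 2 * (3 * K ^ 2) ^ k)] with X h1 h2 h3 h4
    exact ⟨h1, h2, h3, h4⟩
  obtain ⟨X3, hX3⟩ := eventually_atTop.1 hev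
  refine ⟨max (univ.sup X1) X3, ?_⟩
  intro X hX m₀ M H hH1 hHD hM hm
  obtain ⟨hL, hw3', hll, hllk⟩ := hX3 X ((le_max_right _ _).trans hX)
  have hCFX := fun l => hCF l X ((le_sup (mem_univ l)).trans ((le_max_left _ _).trans hX))
  obtain ⟨hX1, -⟩ := S_facts X hL
  have hX0 : (1 : ℝ) ≤ X := by exact_mod_cast hX1
  rw [← Real.sqrt_eq_rpow] at hll
  set L := Real.log X with hLdef
  have hL1 : 1 ≤ L := by linarith
  have hL0 : 0 < L := by linarith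
  set z := ⌊L ^ E⌋₊ with hz
  set w := ⌊L ^ (1 / (u : ℝ))⌋₊ with hw
  have hLE : L ≤ L ^ E := by
    calc L = L ^ 1 := (pow_one _).symm
      _ ≤ L ^ E := pow_le_pow_right₀ hL1 hE
  have hz3 : 3 ≤ z := by
    rw [hz]; apply Nat.le_floor; push_cast; linarith
  have hw3 : 3 ≤ w := by
    rw [hw]; apply Nat.le_floor; exact_mod_cast hw3'
  have hzle : (z : ℝ) ≤ L ^ E := Nat.floor_le (by positivity)
  have hwle : (w : ℝ) ≤ L ^ E := by
    refine (Nat.floor_le (by positivity)).trans ?_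
    calc L ^ (1 / (u : ℝ)) ≤ L ^ (1 : ℝ) := by
          apply Real.rpow_le_rpow_of_exponent_le hL1
          rw [div_le_one (by exact_mod_cast hu)]
          exact_mod_cast hu
      _ = L := Real.rpow_one _
      _ ≤ _ := hLE
  have hl1 : 1 ≤ Real.log L := by
    rw [← Real.log_exp 1]
    apply Real.log_le_log (Real.exp_pos _)
    have := Real.exp_one_lt_d9
    linarith
  set l := Real.log L with hldef
  have hl0 : 0 < l := by linarith
  have hVx : ∀ x : ℕ, 3 ≤ x → (x : ℝ) ≤ L ^ E → (Vz x)⁻¹ ≤ K * l ^ 2 := by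
    intro x hx3 hxle
    have h1 := hCV x hx3
    have hlogx : Real.log x ≤ (E + 1) * l := by
      have h1 : (0 : ℝ) < x := by exact_mod_cast (by omega : 0 < x)
      have := Real.log_le_log h1 hxle
      rw [Real.log_pow] at this
      nlinarith
    have hlx0 : 0 ≤ Real.log x := Real.log_natCast_nonneg x
    calc (Vz x)⁻¹ ≤ CV * Real.log x ^ 2 := h1
      _ ≤ CV * ((E + 1) * l) ^ 2 := by gcongr
      _ = K * l ^ 2 := by rw [hK]; ring
  have hVz := hVx z hz3 hzle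
  have hVw := hVx w hw3 hwle
  have hFz : ∀ y, |ll z y| ≤ K * l ^ 2 := by
    intro y
    rw [abs_of_nonneg (ll_nonneg _ _)]
    exact (ll_le _ _).trans hVz
  have hFw : ∀ y, |ll w y| ≤ K * l ^ 2 := by
    intro y
    rw [abs_of_nonneg (ll_nonneg _ _)]
    exact (ll_le _ _).trans hVw
  have hFD : ∀ y, |ll z y - ll w y| ≤ K * l ^ 2 := by
    intro y
    rw [abs_le]
    have h1 := ll_nonneg z y
    have h2 := ll_nonneg w y
    have h3 := (ll_le z y).trans hVz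
    have h4 := (ll_le w y).trans hVw
    constructor <;> linarith
  have hA : (2 * (X : ℝ) + 1) * (K * l ^ 2) ^ 2 ≤ X * (3 * K ^ 2 * l ^ 4) := by
    have h1 : (2 * (X : ℝ) + 1) * (K * l ^ 2) ^ 2 ≤ (3 * X) * (K * l ^ 2) ^ 2 := by
      apply mul_le_mul_of_nonneg_right _ (by positivity)
      linarith
    refine h1.trans (le_of_eq ?_)
    ring
  have hm2 := main k f (fun _ => 1) (fun _ => by rw [abs_one]) X m₀ M H (ll z) (ll w)
    (X * (3 * K ^ 2 * l ^ 4)) (X * (3 * K ^ 2 * l ^ 4))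
    (X * M / l ^ (V + 4 * k + 1)) (by positivity)
    (fun j n => (le_abs_self _).trans ((cor_le (f j) hFz X n n).trans hA))
    (fun j n => (le_abs_self _).trans ((cor_le (f j) hFw X n n).trans hA))
    (fun j n => (le_abs_self _).trans ((cor_le (f j) hFD X n n).trans hA))
    (fun j n n' => (cor_le (f j) hFz X n n').trans hA)
    (fun j n n' => (cor_le (f j) hFw X n n').trans hA)
    (fun t i j hij hjH => hCFX t m₀ M i j hij ((by exact_mod_cast hjH : (j : ℝ) ≤ H).trans hHD) (hM t) (hm t))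
  refine hm2.trans ?_
  have hH0 : (0 : ℝ) ≤ H := Nat.cast_nonneg _
  have hM0 : (0 : ℝ) ≤ M := Nat.cast_nonneg _
  have hS : (∑ m ∈ Ioc m₀ (m₀ + M), ∑ _n ∈ Ioc m (m + H), (1 : ℝ) ^ 2) = M * H := by
    have h1 : ∀ m ∈ Ioc m₀ (m₀ + M), (∑ _n ∈ Ioc m (m + H), (1 : ℝ) ^ 2) = H := by
      intro m _
      rw [one_pow, sum_const, Nat.card_Ioc, Nat.add_sub_cancel_left, nsmul_eq_mul, mul_one]
    rw [sum_congr rfl h1, sum_const, Nat.card_Ioc, Nat.add_sub_cancel_left, nsmul_eq_mul]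
  rw [hS]
  have t1 : ((k : ℝ) + 1) ^ 2 * (M * H * (X * (3 * K ^ 2 * l ^ 4)) ^ (k + 1)) ≤
      (X : ℝ) ^ (k + 1) * M * (H * √L) := by
    have e1 : ((k : ℝ) + 1) ^ 2 * (M * H * (X * (3 * K ^ 2 * l ^ 4)) ^ (k + 1)) =
        (X : ℝ) ^ (k + 1) * M * (H * (((k : ℝ) + 1) ^ 2 * (3 * K ^ 2) ^ (k + 1) * l ^ (4 * (k + 1)))) := by
      rw [mul_pow, mul_pow (3 * K ^ 2) (l ^ 4), ← pow_mul]
      ring
    rw [e1]
    gcongr
  have t2 : ((k : ℝ) + 1) ^ 2 * ((H : ℝ) ^ 2 * ((X * (3 * K ^ 2 * l ^ 4)) ^ k * (X * M / l ^ (V + 4 * k + 1)))) ≤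
      (X : ℝ) ^ (k + 1) * M * ((H : ℝ) ^ 2 / l ^ V) := by
    have e1 : (l ^ (V + 4 * k + 1) : ℝ) = l ^ V * (l ^ 4) ^ k * l := by rw [pow_succ, pow_add, pow_mul]
    have e2 : ((k : ℝ) + 1) ^ 2 * ((H : ℝ) ^ 2 * ((X * (3 * K ^ 2 * l ^ 4)) ^ k * (X * M / l ^ (V + 4 * k + 1)))) =
        (X : ℝ) ^ (k + 1) * M * ((H : ℝ) ^ 2 / l ^ V) * ((((k : ℝ) + 1) ^ 2 * (3 * K ^ 2) ^ k) / l) := by
      rw [e1, mul_pow, mul_pow (3 * K ^ 2) (l ^ 4)]
      field_simp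
      ring
    rw [e2]
    have h5 : (((k : ℝ) + 1) ^ 2 * (3 * K ^ 2) ^ k) / l ≤ 1 := by
      rw [div_le_one hl0]
      exact hllk
    have h6 : 0 ≤ (X : ℝ) ^ (k + 1) * M * ((H : ℝ) ^ 2 / l ^ V) := by positivity
    exact mul_le_of_le_one_right h6 h5
  calc ((k : ℝ) + 1) ^ 2 * (M * H * (X * (3 * K ^ 2 * l ^ 4)) ^ (k + 1) +
        (H : ℝ) ^ 2 * ((X * (3 * K ^ 2 * l ^ 4)) ^ k * (X * M / l ^ (V + 4 * k + 1))))
      = ((k : ℝ) + 1) ^ 2 * (M * H * (X * (3 * K ^ 2 * l ^ 4)) ^ (k + 1)) +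
        ((k : ℝ) + 1) ^ 2 * ((H : ℝ) ^ 2 * ((X * (3 * K ^ 2 * l ^ 4)) ^ k * (X * M / l ^ (V + 4 * k + 1)))) := by ring
    _ ≤ (X : ℝ) ^ (k + 1) * M * (H * √L) + (X : ℝ) ^ (k + 1) * M * ((H : ℝ) ^ 2 / l ^ V) := add_le_add t1 t2
    _ = _ := by ring

end Run7.h973.G
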